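import Pool.Agent.P.MP_9d026e_co.Three.Reduce3

/-! Growth of sumsets of squares in `F_p[x]`: Q1 as posed holds exactly for the odd primes
`p ≠ 3`, and for every odd prime it holds apart from bounded sets with `|A + A| = |A|`. -/

open Polynomial Pointwise

namespace Pool.Agent.Results.MP_9d026e_co.SquareSumsets

theorem result (p : ℕ) [Fact p.Prime] (hp : p ≠ 2) :
    ((∃ ε : ℝ, 0 < ε ∧ ∀ A : Finset (ZMod p)[X], (∀ f ∈ A, IsSquare f) →
      (A.card : ℝ) ^ (1 + ε) ≤ ((A + A).card : ℝ)) ↔ p ≠ 3) ∧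
    ∃ ε : ℝ, 0 < ε ∧ ∃ N : ℕ, ∀ A : Finset (ZMod p)[X], (∀ f ∈ A, IsSquare f) →
      (N ≤ A.card ∨ A.card < (A + A).card) → (A.card : ℝ) ^ (1 + ε) ≤ ((A + A).card : ℝ) := by
  have key : p ≠ 3 → ∃ ε : ℝ, 0 < ε ∧ ∀ A : Finset (ZMod p)[X], (∀ f ∈ A, IsSquare f) →
      (A.card : ℝ) ^ (1 + ε) ≤ ((A + A).card : ℝ) := by
    intro h3
    have hpp : p.Prime := Fact.out
    have h5 : 5 ≤ p := by
      have h2 := hpp.two_le
      have h4 : p ≠ 4 := by rintro rfl; exact absurd hpp (by decide)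
      omega
    obtain ⟨K, hK⟩ := Pool.Agent.P.MP_9d026e_co.noCube p h5
    exact Pool.Agent.P.MP_9d026e_co.growth_of_noCube p h5 K hK
  refine ⟨⟨?_, key⟩, ?_⟩
  · rintro ⟨ε, hε, h⟩ rfl
    obtain ⟨A, hA, hlt⟩ := Pool.Agent.P.MP_9d026e_co.three_fails ε hε
    exact absurd (h A hA) (not_le.2 hlt)
  · by_cases h3 : p = 3
    · subst h3
      exact Pool.Agent.P.MP_9d026e_co.Three.growth_large 3 le_rfl _
        Pool.Agent.P.MP_9d026e_co.Three.noCube3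
    · obtain ⟨ε, hε, h⟩ := key h3
      exact ⟨ε, hε, 0, fun A hA _ => h A hA⟩

end Pool.Agent.Results.MP_9d026e_co.SquareSumsets
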